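import Pool.Agent.Work.MP_cb380d_h91.Model

/-!
# MP_cb380d_lc, EntropyReductions: definitions
-/

set_option autoImplicit false

open Pool.IC

namespace Pool.EN

/-- The function `F` is one-one on the strings of length `n` and makes them longer. -/
def GoodOn (F : Str → Str) (n : ℕ) : Prop :=
  Set.InjOn F {x | x.length = n} ∧ ∀ x : Str, x.length = n → n < (F x).length

/-- `L` reduces to `A` by one-one, length-increasing functions in polynomial time with random
advice: there is a polynomial-time function `G` of an advice string `r` and an input `x` such that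
for every `r` the function `G r` reduces `L` to `A`, for all but a fraction less than `2 ^ (-n)` of
the advice strings `r` of length `l n` the function `G r` is one-one and length-increasing on the
strings of length `n`, and for suitable advice strings `a n` of length `l n` the function
`x ↦ G (a |x|) x` is one-one and length-increasing on all strings. -/
def AdviceOneLi (B L A : Set Str) : Prop :=
  ∃ (G : Str → Str → Str) (M : Cmd) (q l : Polynomial ℕ),
    (∀ r x : Str, out B M [] r x (q.eval (r.length + x.length)) = some (G r x)) ∧
    (∀ r x : Str, x ∈ L ↔ G r x ∈ A) ∧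
    (∀ n : ℕ, 2 ^ n * {r : Str | r.length = l.eval n ∧ ¬ GoodOn (G r) n}.ncard < 2 ^ l.eval n) ∧
    ∃ a : ℕ → Str, (∀ n, (a n).length = l.eval n) ∧
      Function.Injective (fun x : Str => G (a x.length) x) ∧
      ∀ x : Str, x.length < (G (a x.length) x).length

/-- `L` reduces to `A` by a polynomial-time function `f` of the input `x` and a random string `r`
of length `l n`, `n = |x|`, with min-entropy at least `h` if `(h + c) ^ k ≤ n`: every value is
taken by at most a fraction `2 ^ (-h)` of the `2 ^ (n + l n)` strings `x ++ r`. -/
def EntropyReduces (k : ℕ) (B L A : Set Str) : Prop :=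
  ∃ (f : Str → Str) (l : Polynomial ℕ) (c : ℕ), PolyFun B f ∧
    (∀ x r : Str, r.length = l.eval x.length → (x ∈ L ↔ f (x ++ r) ∈ A)) ∧
    ∀ n h : ℕ, (h + c) ^ k ≤ n → ∀ y : Str,
      2 ^ h * {z : Str | z.length = n + l.eval n ∧ f z = y}.ncard ≤ 2 ^ (n + l.eval n)

end Pool.EN
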