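import Pool.Agent.Work.MP_cb380d_en.Prog
import Pool.Agent.Work.MP_cb380d_en.Defs

/-!
# MP_cb380d_lc, EntropyReductions: assembly
-/

set_option autoImplicit false

open Pool.IC Pool.GL Pool.TL Polynomial
open Pool.EV (rst lead dcd)

namespace Pool.EN

section

variable {n m : ℕ}

/-- A key as a string. -/
def enc (α : Fin (n + 1) → Fin m → Bool) : Str :=
  (List.range ((n + 1) * m)).map fun p =>
    if h : p / m < n + 1 ∧ p % m < m then α ⟨p / m, h.1⟩ ⟨p % m, h.2⟩ else false

theorem length_enc (α : Fin (n + 1) → Fin m → Bool) : (enc α).length = (n + 1) * m := by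
  simp [enc]

theorem enc_row (α : Fin (n + 1) → Fin m → Bool) (j : Fin m) (i : ℕ) :
    (enc α).getD (i * m + j) false = row α j i := by
  have hm : 0 < m := lt_of_le_of_lt (Nat.zero_le _) j.2
  by_cases hi : i < n + 1
  · have h1 : i * m + j < (n + 1) * m := by
      have := Nat.mul_le_mul_right m (show i + 1 ≤ n + 1 by omega)
      rw [Nat.add_mul, one_mul] at this
      have := j.2
      omega
    have h2 : (i * m + (j : ℕ)) / m = i := by
      rw [mul_comm, Nat.mul_add_div hm, Nat.div_eq_of_lt j.2, add_zero]
    have h3 : (i * m + (j : ℕ)) % m = j := by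
      rw [mul_comm, Nat.mul_add_mod, Nat.mod_eq_of_lt j.2]
    rw [List.getD_eq_getElem _ _ (by rw [length_enc]; exact h1)]
    unfold enc row
    rw [List.getElem_map, List.getElem_range, dif_pos hi, dif_pos ⟨by rw [h2]; exact hi,
      by rw [h3]; exact j.2⟩]
    have e1 : (⟨(i * m + (j : ℕ)) / m, by rw [h2]; exact hi⟩ : Fin (n + 1)) = ⟨i, hi⟩ := Fin.ext h2
    have e2 : (⟨(i * m + (j : ℕ)) % m, by rw [h3]; exact j.2⟩ : Fin m) = j := Fin.ext h3
    rw [e1, e2]
  · unfold row
    rw [dif_neg hi]
    apply List.getD_eq_default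
    rw [length_enc]
    have := Nat.mul_le_mul_right m (show n + 1 ≤ i by omega)
    omega

theorem enc_surj (r : Str) (hr : r.length = (n + 1) * m) :
    ∃ α : Fin (n + 1) → Fin m → Bool, enc α = r := by
  refine ⟨fun i j => r.getD (i * m + j) false, ?_⟩
  apply List.ext_getElem (by rw [length_enc, hr])
  intro p h1 h2
  unfold enc
  rw [List.getElem_map, List.getElem_range]
  have hm : 0 < m := by
    rcases Nat.eq_zero_or_pos m with h | h
    · rw [h, mul_zero] at hr
      omega
    · exact h
  have h3 : p / m < n + 1 := by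
    rw [Nat.div_lt_iff_lt_mul hm]
    omega
  rw [dif_pos ⟨h3, Nat.mod_lt _ hm⟩]
  show r.getD (p / m * m + p % m) false = r[p]
  rw [mul_comm, Nat.div_add_mod, List.getD_eq_getElem _ _ h2]

theorem hs_enc (α : Fin (n + 1) → Fin m → Bool) (x : Str) :
    hs m (enc α) x = List.ofFn (hv α x) := by
  apply List.ext_getElem (by rw [length_hs, List.length_ofFn])
  intro j h1 h2
  have hj : j < m := by rwa [length_hs] at h1
  unfold hs
  rw [List.getElem_map, List.getElem_range, List.getElem_ofFn]
  show hb _ x = hb (row α ⟨j, hj⟩) x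
  congr 1
  funext i
  exact enc_row α ⟨j, hj⟩ i

end

/-- The reduction with key `enc α`. -/
theorem gg_enc (f : Str → Str) (l : Polynomial ℕ) (n : ℕ)
    (α : Fin (n + 1) → Fin ((mp l).eval n) → Bool) (x : Str)
    (hx : x.length = n) : gg f l (enc α) x = gv (FF f) α x := by
  unfold gg gv
  subst hx
  rw [hs_enc]

/-- Length of the keys. -/
noncomputable def lp (l : Polynomial ℕ) : Polynomial ℕ := (X + 1) * mp l

theorem lp_eval (l : Polynomial ℕ) (n : ℕ) : (lp l).eval n = (n + 1) * (mp l).eval n := by
  unfold lp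
  simp

/-- Every value is taken at most `2 ^ l n` times. -/
def Few (f : Str → Str) (l : Polynomial ℕ) : Prop :=
  ∀ (n : ℕ) (y : Str), {z : Str | z.length = n + l.eval n ∧ f z = y}.ncard ≤ 2 ^ l.eval n

/-- Reductions of min-entropy at least `n`. -/
def Spread (B L A : Set Str) : Prop :=
  ∃ (f : Str → Str) (l : Polynomial ℕ), PolyFun B f ∧
    (∀ x r : Str, r.length = l.eval x.length → (x ∈ L ↔ f (x ++ r) ∈ A)) ∧ Few f l

open Classical in
theorem main_bad {f : Str → Str} {l : Polynomial ℕ} (hf : Few f l) (n : ℕ)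
    (S : Finset Str) (hS : S.card ≤ 2 ^ n) :
    (Finset.univ.filter fun α : Fin (n + 1) → Fin ((mp l).eval n) → Bool =>
      ¬ Good (FF f) S α).card * 2 ^ (n + 1) ≤ 2 ^ ((n + 1) * (mp l).eval n) := by
  refine bad_le (h := 3 * n + 3) (FF f) (fun x hx y => ?_) le_rfl S hS
  have h1 : {r : Str | r.length = (mp l).eval n ∧ FF f r x = y}.ncard ≤
      2 ^ l.eval (5 * n + 4) := by
    refine le_trans ?_ (hf (5 * n + 4) y)
    have hfin : {z : Str | z.length = (5 * n + 4) + l.eval (5 * n + 4) ∧ f z = y}.Finite :=
      (strs _).finite_toSet.subset fun z hz => Finset.mem_coe.2 (mem_strs.2 hz.1)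
    refine Set.ncard_le_ncard_of_injOn (fun r => un x.length ++ false :: (x ++ r))
      (fun r hr => ?_) (fun r _ r' _ he => ?_) hfin
    · refine ⟨?_, hr.2⟩
      simp only [un, List.length_append, List.length_replicate, List.length_cons, hr.1, hx,
        mp_eval]
      omega
    · have h2 := List.append_cancel_left he
      rw [List.cons.injEq] at h2
      exact List.append_cancel_left h2.2
  have e2 : 2 ^ ((mp l).eval n) = 2 ^ (3 * n + 3) * 2 ^ l.eval (5 * n + 4) := by
    rw [mp_eval, pow_add]
  rw [e2]
  exact Nat.mul_le_mul_left _ h1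

theorem exists_key {f : Str → Str} {l : Polynomial ℕ} (hf : Few f l) (n : ℕ)
    (S : Finset Str) (hS : S.card ≤ 2 ^ n) :
    ∃ A : Str, A.length = (lp l).eval n ∧
      (∀ x x' : Str, x.length = n → x'.length = n → gg f l A x = gg f l A x' → x = x') ∧
      ∀ x : Str, x.length = n → n < (gg f l A x).length ∧ gg f l A x ∉ S := by
  classical
  obtain ⟨α, hα⟩ : ∃ α : Fin (n + 1) → Fin ((mp l).eval n) → Bool, Good (FF f) S α := by
    by_contra hcon
    push Not at hcon
    have h1 := main_bad hf n S hS
    rw [Finset.filter_true_of_mem (fun α _ => hcon α), Finset.card_univ] at h1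
    have h2 : Fintype.card (Fin (n + 1) → Fin ((mp l).eval n) → Bool) =
        2 ^ ((n + 1) * (mp l).eval n) := by
      simp [← pow_mul, mul_comm]
    rw [h2] at h1
    have h3 : 0 < 2 ^ ((n + 1) * (mp l).eval n) := Nat.pos_of_ne_zero (by positivity)
    have h4 : 2 ≤ 2 ^ (n + 1) := by
      have := Nat.one_le_two_pow (n := n)
      rw [pow_succ]
      omega
    have h5 := Nat.mul_le_mul_left (2 ^ ((n + 1) * (mp l).eval n)) h4
    omega
  refine ⟨enc α, by rw [length_enc, lp_eval], fun x x' hx hx' he => ?_, fun x hx => ?_⟩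
  · rw [gg_enc f l n α x hx, gg_enc f l n α x' hx'] at he
    exact hα.1 x x' hx hx' he
  · rw [gg_enc f l n α x hx]
    exact hα.2 x hx

theorem random_key {f : Str → Str} {l : Polynomial ℕ} (hf : Few f l) (n : ℕ) :
    2 ^ n * {r : Str | r.length = (lp l).eval n ∧ ¬ GoodOn (gg f l r) n}.ncard <
      2 ^ (lp l).eval n := by
  classical
  have h1 := main_bad hf n ∅ (by simp)
  have h2 : {r : Str | r.length = (lp l).eval n ∧ ¬ GoodOn (gg f l r) n}.ncard ≤
      (Finset.univ.filter fun α : Fin (n + 1) → Fin ((mp l).eval n) → Bool =>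
        ¬ Good (FF f) ∅ α).card := by
    refine le_trans ?_ (Finset.card_image_le (f := enc))
    rw [← Set.ncard_coe_finset]
    refine Set.ncard_le_ncard ?_ (Finset.finite_toSet _)
    rintro r ⟨hr, hbad⟩
    rw [lp_eval] at hr
    obtain ⟨α, rfl⟩ := enc_surj r hr
    refine Finset.mem_coe.2 (Finset.mem_image.2 ⟨α, Finset.mem_filter.2 ⟨Finset.mem_univ _,
      fun hg => hbad ⟨fun x hx x' hx' he => ?_, fun x hx => ?_⟩⟩, rfl⟩)
    · have hx1 : x.length = n := hx
      have hx2 : x'.length = n := hx'
      rw [gg_enc f l n α x hx1, gg_enc f l n α x' hx2] at he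
      exact hg.1 x x' hx1 hx2 he
    · rw [gg_enc f l n α x hx]
      exact (hg.2 x hx).1
  rw [lp_eval]
  rw [lp_eval] at h2
  set c := (Finset.univ.filter fun α : Fin (n + 1) → Fin ((mp l).eval n) → Bool =>
        ¬ Good (FF f) ∅ α).card
  have h3 : 0 < 2 ^ ((n + 1) * (mp l).eval n) := Nat.pos_of_ne_zero (by positivity)
  have h4 := Nat.mul_le_mul_left (2 ^ n) h2
  rw [pow_succ] at h1
  have h5 : c * (2 ^ n * 2) = 2 * (2 ^ n * c) := by ring
  omega

/-- **Main theorem.** -/
theorem spread_advice (B A : Set Str) (hA : ∀ L : Set Str, InNP B L → Spread B L A)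
    (L : Set Str) (hL : InNP B L) : AdviceOneLi B L A := by
  classical
  obtain ⟨f, l, hf, hred, hent⟩ :=
    hA {z | dcd z ∈ L} (np_comap B L hL dcd (poly_dcd B) length_dcd)
  obtain ⟨M, q, hM⟩ := two_inputs B (poly_gg B ((polyFun_iff_polyF f).1 hf) l)
  refine ⟨gg f l, M, q, lp l, hM, fun r x => ?_, random_key hent, ?_⟩
  · unfold gg FF
    set ρ := hs ((mp l).eval x.length) r x with hρ
    have hlen : ρ.length = 3 * x.length + 3 + l.eval (5 * x.length + 4) := by
      rw [hρ, length_hs, mp_eval]
    have e : un x.length ++ false :: (x ++ ρ) =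
        (un x.length ++ false :: (x ++ ρ.take (3 * x.length + 3))) ++ ρ.drop (3 * x.length + 3) := by
      rw [List.append_assoc, List.cons_append, List.append_assoc, List.take_append_drop]
    have h1 : (un x.length ++ false :: (x ++ ρ.take (3 * x.length + 3))).length =
        5 * x.length + 4 := by
      simp only [un, List.length_append, List.length_replicate, List.length_cons,
        List.length_take, hlen]
      omega
    rw [e]
    refine Iff.trans ?_ (hred _ _ (by rw [h1, List.length_drop, hlen]; omega))
    show x ∈ L ↔ dcd (un x.length ++ false :: (x ++ ρ.take (3 * x.length + 3))) ∈ L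
    rw [dcd_eq]
  have hch : ∀ (n : ℕ) (S : Finset Str), ∃ A : Str, S.card ≤ 2 ^ n →
      A.length = (lp l).eval n ∧
      (∀ x x' : Str, x.length = n → x'.length = n → gg f l A x = gg f l A x' → x = x') ∧
      ∀ x : Str, x.length = n → n < (gg f l A x).length ∧ gg f l A x ∉ S := by
    intro n S
    by_cases hS : S.card ≤ 2 ^ n
    · obtain ⟨A, hA⟩ := exists_key hent n S hS
      exact ⟨A, fun _ => hA⟩
    · exact ⟨[], fun h => absurd h hS⟩
  choose K hK using hch
  let T : ℕ → Finset Str := fun n => Nat.rec ∅
    (fun n T => T ∪ (strs n).image (gg f l (K n T))) n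
  have hT : ∀ n, T (n + 1) = T n ∪ (strs n).image (gg f l (K n (T n))) := fun n => rfl
  have hcard : ∀ n, (T n).card + 1 ≤ 2 ^ n := by
    intro n
    induction n with
    | zero => exact le_of_eq rfl
    | succ n ih =>
      rw [hT, pow_succ]
      have h1 := Finset.card_union_le (T n) ((strs n).image (gg f l (K n (T n))))
      have h2 : ((strs n).image (gg f l (K n (T n)))).card ≤ 2 ^ n := by
        rw [← card_strs n]
        exact Finset.card_image_le
      omega
  have hmono : ∀ i j, i ≤ j → T i ⊆ T j := by
    intro i j hij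
    induction hij with
    | refl => exact Finset.Subset.refl _
    | step _ ih => exact ih.trans (by rw [hT]; exact Finset.subset_union_left)
  have hgood := fun n => hK n (T n) (by have := hcard n; omega)
  have hmem : ∀ x : Str, gg f l (K x.length (T x.length)) x ∈ T (x.length + 1) := by
    intro x
    rw [hT]
    exact Finset.mem_union_right _ (Finset.mem_image_of_mem _ (mem_strs.2 rfl))
  refine ⟨fun n => K n (T n), fun n => (hgood n).1, fun x x' he => ?_,
    fun x => ((hgood x.length).2.2 x rfl).1⟩
  have he' : gg f l (K x.length (T x.length)) x = gg f l (K x'.length (T x'.length)) x' := he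
  rcases lt_trichotomy x.length x'.length with h | h | h
  · exfalso
    have h1 := hmono _ _ (Nat.succ_le_of_lt h) (hmem x)
    rw [he'] at h1
    exact ((hgood x'.length).2.2 x' rfl).2 h1
  · rw [← h] at he'
    exact (hgood x.length).2.1 x x' rfl h.symm he'
  · exfalso
    have h1 := hmono _ _ (Nat.succ_le_of_lt h) (hmem x')
    rw [← he'] at h1
    exact ((hgood x.length).2.2 x rfl).2 h1

/-- From polynomial min-entropy to min-entropy at least `n`. -/
theorem entropy_spread (B A : Set Str) (k : ℕ)
    (hk : ∀ L : Set Str, InNP B L → EntropyReduces k B L A) (L : Set Str) (hL : InNP B L) :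
    Spread B L A := by
  obtain ⟨f, l, t, hf, hred, hent⟩ := hk _ (LL_np B L k hL)
  have hPP : ∀ n : ℕ, PP k (n + t + 1) = n + t + 1 + mm k t n := by
    intro n
    unfold PP mm
    omega
  have hl : ∀ n : ℕ, ((5 * (X + (t : Polynomial ℕ) + 1)) ^ k + 1 + l.comp
      (X + (t : Polynomial ℕ) + 1 + ((5 * (X + (t : Polynomial ℕ) + 1)) ^ k + 1)) :
      Polynomial ℕ).eval n = mm k t n + l.eval (PP k (n + t + 1)) := by
    intro n
    rw [hPP]
    unfold mm
    simp
  refine ⟨fun z => f (un t ++ false :: z), (5 * (X + (t : Polynomial ℕ) + 1)) ^ k + 1 + l.comp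
      (X + (t : Polynomial ℕ) + 1 + ((5 * (X + (t : Polynomial ℕ) + 1)) ^ k + 1)), ?_,
    fun x r hr => ?_, fun n y => ?_⟩
  · have hfP := (polyFun_iff_polyF f).1 hf
    have h1 : PolyF B (fun z : Str => List.replicate t true ++ false :: z) := by fun_prop
    exact (polyFun_iff_polyF _).2 (PolyF.comp (f := f) hfP h1)
  · rw [hl] at hr
    have e : un t ++ false :: (x ++ r) = (un t ++ false :: (x ++ r.take (mm k t x.length))) ++
        r.drop (mm k t x.length) := by
      rw [List.append_assoc, List.cons_append, List.append_assoc, List.take_append_drop]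
    have h1 : (un t ++ false :: (x ++ r.take (mm k t x.length))).length =
        PP k (x.length + t + 1) := by
      rw [hPP]
      simp only [un, List.length_append, List.length_replicate, List.length_cons,
        List.length_take, hr]
      omega
    show x ∈ L ↔ f (un t ++ false :: (x ++ r)) ∈ A
    rw [e, ← hred _ _ (by rw [h1, List.length_drop, hr]; omega)]
    show x ∈ L ↔ rst (cut k (un t ++ false :: (x ++ r.take (mm k t x.length)))) ∈ L
    rw [cut_pad k t x _ (by rw [List.length_take, hr]; omega)]
  · rw [hl]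
    have h1 := hent (PP k (n + t + 1)) (n + t + 1) (by
      calc (n + t + 1 + t) ^ k ≤ (5 * (n + t + 1)) ^ k := Nat.pow_le_pow_left (by omega) k
        _ ≤ _ := by unfold PP; omega) y
    have e : PP k (n + t + 1) + l.eval (PP k (n + t + 1)) =
        (n + t + 1) + (mm k t n + l.eval (PP k (n + t + 1))) := by
      have := hPP n
      omega
    rw [e, pow_add 2 (n + t + 1) (mm k t n + l.eval (PP k (n + t + 1)))] at h1
    have h2 := Nat.le_of_mul_le_mul_left h1 (Nat.pos_of_ne_zero (by positivity))
    refine le_trans ?_ h2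
    have hfin : {z : Str | z.length = n + t + 1 + (mm k t n + l.eval (PP k (n + t + 1))) ∧
        f z = y}.Finite :=
      (strs _).finite_toSet.subset fun z hz => Finset.mem_coe.2 (mem_strs.2 hz.1)
    refine Set.ncard_le_ncard_of_injOn (fun z => un t ++ false :: z)
      (fun z hz => ⟨?_, hz.2⟩) (fun z _ z' _ he => ?_) hfin
    · simp only [un, List.length_append, List.length_replicate, List.length_cons, hz.1]
      omega
    · have h3 := List.append_cancel_left he
      rw [List.cons.injEq] at h3
      exact h3.2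

/-- The converse of the main theorem. -/
theorem advice_spread (B A : Set Str) (hA : ∀ L : Set Str, InNP B L → AdviceOneLi B L A)
    (L : Set Str) (hL : InNP B L) : Spread B L A := by
  classical
  have hdl : PolyF B (fun z : Str => z.dropLast) := by
    have h0 : PolyF B (fun z : Str => (z.reverse.tail).reverse) := by fun_prop
    refine h0.congrF fun z => ?_
    rw [List.tail_reverse, List.reverse_reverse]
  obtain ⟨G, M, q, l, hM, hred, hbad, -⟩ := hA {z | z.dropLast ∈ L}
    (np_comap B L hL (fun z => z.dropLast) hdl (fun z => by rw [List.length_dropLast]; omega))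
  have hG : PolyF B (fun p : Str × Str => G p.1 p.2) := of_two_inputs B hM
  let Q : ℕ → ℕ := fun u => u + l.eval u
  have hQ : StrictMono Q := by
    intro u v h
    have := poly_mono l h.le
    show u + l.eval u < v + l.eval v
    omega
  have hQP : PolyF B (fun p : Str × ℕ => Q p.2) := by
    have h1 : PolyF B (fun p : Str × ℕ => l.eval p.2) := PolyF.polyEval l (by fun_prop)
    show PolyF B (fun p : Str × ℕ => p.2 + l.eval p.2)
    fun_prop
  have huo := poly_uo B Q hQP
  have hl : ∀ n : ℕ, (l.comp (X + 1) + 1 : Polynomial ℕ).eval n = l.eval (n + 1) + 1 := by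
    intro n
    simp
  refine ⟨fun z => G (z.drop (uo Q z)) (z.take (uo Q z)), l.comp (X + 1) + 1, ?_,
    fun x r hr => ?_, fun n y => ?_⟩
  · have h1 : PolyF B (fun z : Str => (z.drop (uo Q z), z.take (uo Q z))) :=
      PolyF.pair (PolyF.drop huo (by fun_prop)) (PolyF.take huo (by fun_prop))
    exact (polyFun_iff_polyF _).2 (PolyF.comp (f := fun p : Str × Str => G p.1 p.2) hG h1)
  · rw [hl] at hr
    obtain ⟨b, r', rfl⟩ : ∃ b r', r = b :: r' := by
      cases r with
      | nil => simp at hr
      | cons b r' => exact ⟨b, r', rfl⟩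
    have h1 : (x ++ b :: r').length = Q (x.length + 1) := by
      show _ = x.length + 1 + l.eval (x.length + 1)
      rw [List.length_append, hr]
      omega
    show x ∈ L ↔ G ((x ++ b :: r').drop (uo Q (x ++ b :: r')))
      ((x ++ b :: r').take (uo Q (x ++ b :: r'))) ∈ A
    rw [uo_eq hQ h1]
    have e : x ++ b :: r' = (x ++ [b]) ++ r' := by simp
    rw [e, List.take_left' (by simp), ← hred]
    show x ∈ L ↔ (x ++ [b]).dropLast ∈ L
    rw [List.dropLast_concat]
  · rw [hl]
    set u := n + 1 with hu
    set bad : Finset Str := (strs (l.eval u)).filter fun r => ¬ GoodOn (G r) u with hbd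
    have hb : 2 ^ u * bad.card < 2 ^ l.eval u := by
      have h1 := hbad u
      have h2 : {r : Str | r.length = l.eval u ∧ ¬ GoodOn (G r) u} = (bad : Set Str) := by
        ext r
        simp [hbd, mem_strs]
      rwa [h2, Set.ncard_coe_finset] at h1
    let W : Finset (Str × Str) := ((strs (l.eval u)) ×ˢ (strs u)).filter fun p => G p.1 p.2 = y
    have hW : {z : Str | z.length = n + (l.eval u + 1) ∧
        G (z.drop (uo Q z)) (z.take (uo Q z)) = y}.ncard ≤ W.card := by
      rw [← Set.ncard_coe_finset]
      have hz : ∀ z : Str, z.length = n + (l.eval u + 1) → uo Q z = u := fun z h =>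
        uo_eq hQ (by show _ = u + l.eval u; omega)
      refine Set.ncard_le_ncard_of_injOn (fun z => (z.drop u, z.take u))
        (fun z hz' => ?_) (fun z _ z' _ he => ?_) (Finset.finite_toSet _)
      · refine Finset.mem_coe.2 (Finset.mem_filter.2 ⟨Finset.mem_product.2
          ⟨mem_strs.2 ?_, mem_strs.2 ?_⟩, ?_⟩)
        · rw [List.length_drop, hz'.1]
          omega
        · rw [List.length_take, hz'.1]
          omega
        · have h3 := hz'.2
          rw [hz z hz'.1] at h3
          exact h3
      · simp only [Prod.mk.injEq] at he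
        rw [← List.take_append_drop u z, ← List.take_append_drop u z', he.1, he.2]
    refine hW.trans ?_
    have hsum : W.card = ∑ r ∈ strs (l.eval u), ((strs u).filter fun x => G r x = y).card := by
      show (((strs (l.eval u)) ×ˢ (strs u)).filter fun p => G p.1 p.2 = y).card = _
      rw [Finset.card_filter, Finset.sum_product]
      refine Finset.sum_congr rfl fun r _ => ?_
      rw [Finset.card_filter]
    rw [hsum]
    have hterm : ∀ r ∈ strs (l.eval u), ((strs u).filter fun x => G r x = y).card ≤
        1 + (if ¬ GoodOn (G r) u then 2 ^ u else 0) := by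
      intro r _
      by_cases hg : GoodOn (G r) u
      · rw [if_neg (not_not.2 hg), add_zero, Finset.card_le_one]
        intro x hx x' hx'
        rw [Finset.mem_filter, mem_strs] at hx hx'
        exact hg.1 hx.1 hx'.1 (hx.2.trans hx'.2.symm)
      · rw [if_pos hg]
        refine (Finset.card_filter_le _ _).trans ?_
        rw [card_strs]
        exact Nat.le_add_left _ _
    refine (Finset.sum_le_sum hterm).trans ?_
    have h8 : ∑ r ∈ strs (l.eval u), (if ¬ GoodOn (G r) u then 2 ^ u else 0) =
        bad.card * 2 ^ u := by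
      rw [hbd, ← Finset.sum_filter, Finset.sum_const, smul_eq_mul]
    rw [Finset.sum_add_distrib, h8, Finset.sum_const, card_strs, smul_eq_mul, mul_one]
    have h9 : 2 ^ (l.eval u + 1) = 2 ^ l.eval u + 2 ^ l.eval u := by
      rw [pow_succ 2 (l.eval u), mul_two]
    rw [h9, mul_comm bad.card (2 ^ u)]
    exact Nat.add_le_add_left hb.le _

theorem spread_entropy {B L A : Set Str} (h : Spread B L A) : EntropyReduces 1 B L A := by
  obtain ⟨f, l, hf, hred, hfew⟩ := h
  refine ⟨f, l, 0, hf, hred, fun n h hn y => ?_⟩
  rw [pow_add]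
  exact Nat.mul_le_mul (Nat.pow_le_pow_right (by norm_num) (by simpa using hn)) (hfew n y)

/-- **The equivalence.** -/
theorem equiv (B A : Set Str) : List.TFAE [
    ∀ L : Set Str, InNP B L → AdviceOneLi B L A,
    ∀ L : Set Str, InNP B L → EntropyReduces 1 B L A,
    ∃ k : ℕ, ∀ L : Set Str, InNP B L → EntropyReduces k B L A] := by
  tfae_have 1 → 2 := fun h L hL => spread_entropy (advice_spread B A h L hL)
  tfae_have 2 → 3 := fun h => ⟨1, h⟩
  tfae_have 3 → 1 := by
    rintro ⟨k, hk⟩ L hL
    exact spread_advice B A (entropy_spread B A k hk) L hL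
  tfae_finish

/-- One-one reductions have full min-entropy. -/
theorem oneOne_entropy {B L A : Set Str} {f : Str → Str} (hf : Karp B L A f)
    (hinj : Function.Injective f) : EntropyReduces 1 B L A := by
  refine ⟨f, 0, 0, hf.1, fun x r hr => ?_, fun n h hn y => ?_⟩
  · have hr' : r = [] := by simpa using hr
    rw [hr', List.append_nil]
    exact hf.2 x
  have hfin : {z : Str | z.length = n + (0 : Polynomial ℕ).eval n ∧ f z = y}.Finite :=
    (strs _).finite_toSet.subset fun z hz => Finset.mem_coe.2 (mem_strs.2 hz.1)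
  have h1 : {z : Str | z.length = n + (0 : Polynomial ℕ).eval n ∧ f z = y}.ncard ≤ 1 :=
    (Set.ncard_le_one hfin).2 fun z hz z' hz' => hinj (hz.2.trans hz'.2.symm)
  calc _ ≤ 2 ^ h * 1 := Nat.mul_le_mul_left _ h1
    _ ≤ _ := by
      rw [mul_one]
      exact Nat.pow_le_pow_right (by norm_num) (by simp at hn ⊢; omega)

end Pool.EN
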