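import Mathlib

/-!
# MP_cb380d_lc, EntropyReductions: counting for the hash functions
-/

set_option autoImplicit false

namespace Pool.EN

/-- Bits as elements of the field with two elements. -/
def tz (b : Bool) : ZMod 2 := if b then 1 else 0

theorem tz_inj {a b : Bool} (h : tz a = tz b) : a = b := by
  revert h; cases a <;> cases b <;> simp [tz]

theorem tz_xor (a b : Bool) : tz (a ^^ b) = tz a + tz b := by
  cases a <;> cases b <;> simp [tz] <;> decide

/-- The hash bit of `x` for the key `a`. -/
def hb (a : ℕ → Bool) (x : List Bool) : Bool :=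
  (List.range x.length).foldl (fun s i => s ^^ (x.getD i false && a (i + 1))) (a 0)

theorem hb_fold (g : ℕ → Bool) (s : Bool) (n : ℕ) :
    tz ((List.range n).foldl (fun s i => s ^^ g i) s) = tz s + ∑ i ∈ Finset.range n, tz (g i) := by
  induction n with
  | zero => simp
  | succ n ih =>
    rw [List.range_succ, List.foldl_append, List.foldl_cons, List.foldl_nil, tz_xor, ih,
      Finset.sum_range_succ, add_assoc]

theorem tz_hb (a : ℕ → Bool) (x : List Bool) :
    tz (hb a x) = tz (a 0) + ∑ i ∈ Finset.range x.length, tz (x.getD i false && a (i + 1)) :=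
  hb_fold _ _ _

/-- One position. -/
theorem hb_one {a a' : ℕ → Bool} {x : List Bool} (h : ∀ i ≠ 0, a i = a' i)
    (he : hb a x = hb a' x) : a 0 = a' 0 := by
  have h1 := congrArg tz he
  rw [tz_hb, tz_hb] at h1
  have h2 : ∑ i ∈ Finset.range x.length, tz (x.getD i false && a (i + 1)) =
      ∑ i ∈ Finset.range x.length, tz (x.getD i false && a' (i + 1)) :=
    Finset.sum_congr rfl fun i _ => by rw [h (i + 1) (by omega)]
  rw [h2] at h1
  exact tz_inj (add_right_cancel h1)

/-- Two positions. -/
theorem hb_two {a a' : ℕ → Bool} {x x' : List Bool} {i₀ : ℕ} (hi : i₀ < x.length)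
    (hx : x.getD i₀ false = true) (hx' : x'.getD i₀ false = false)
    (h : ∀ i, i ≠ 0 → i ≠ i₀ + 1 → a i = a' i)
    (he : hb a x = hb a' x) (he' : hb a x' = hb a' x') : a 0 = a' 0 ∧ a (i₀ + 1) = a' (i₀ + 1) := by
  have h0 : a 0 = a' 0 := by
    have h1 := congrArg tz he'
    rw [tz_hb, tz_hb] at h1
    have h2 : ∑ i ∈ Finset.range x'.length, tz (x'.getD i false && a (i + 1)) =
        ∑ i ∈ Finset.range x'.length, tz (x'.getD i false && a' (i + 1)) :=
      Finset.sum_congr rfl fun i _ => by
        by_cases hii : i = i₀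
        · subst hii
          rw [hx']
          rfl
        · rw [h (i + 1) (by omega) (by omega)]
    rw [h2] at h1
    exact tz_inj (add_right_cancel h1)
  refine ⟨h0, ?_⟩
  have h1 := congrArg tz he
  rw [tz_hb, tz_hb, h0] at h1
  have h2 := add_left_cancel h1
  rw [← Finset.add_sum_erase _ _ (Finset.mem_range.2 hi),
    ← Finset.add_sum_erase _ _ (Finset.mem_range.2 hi)] at h2
  have h3 : ∑ i ∈ (Finset.range x.length).erase i₀, tz (x.getD i false && a (i + 1)) =
      ∑ i ∈ (Finset.range x.length).erase i₀, tz (x.getD i false && a' (i + 1)) :=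
    Finset.sum_congr rfl fun i hi' => by
      rw [h (i + 1) (by omega) (by have := Finset.ne_of_mem_erase hi'; omega)]
  rw [h3] at h2
  have h4 := tz_inj (add_right_cancel h2)
  rw [hx] at h4
  simpa using h4

section

variable {n m : ℕ}

/-- Rows of a key as a function on the natural numbers. -/
def row (α : Fin (n + 1) → Fin m → Bool) (j : Fin m) (i : ℕ) : Bool :=
  if h : i < n + 1 then α ⟨i, h⟩ j else false

/-- The hash value. -/
def hv (α : Fin (n + 1) → Fin m → Bool) (x : List Bool) : Fin m → Bool := fun j => hb (row α j) x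

theorem row_zero (α : Fin (n + 1) → Fin m → Bool) (j : Fin m) : row α j 0 = α 0 j := by
  unfold row
  rw [dif_pos (Nat.succ_pos n)]
  rfl

/-- Marginal law. -/
theorem card_one (x : List Bool) (R : Finset (Fin m → Bool)) :
    (Finset.univ.filter fun α : Fin (n + 1) → Fin m → Bool => hv α x ∈ R).card * 2 ^ m ≤
      R.card * 2 ^ ((n + 1) * m) := by
  classical
  have hX : Fintype.card (Fin m → Bool) = 2 ^ m := by simp
  have hH : Fintype.card (Fin (n + 1) → Fin m → Bool) = 2 ^ ((n + 1) * m) := by
    simp [← pow_mul, mul_comm]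
  rw [← hX, ← hH, ← Finset.card_univ, ← Finset.card_univ, ← Finset.card_product,
    ← Finset.card_product]
  refine Finset.card_le_card_of_injOn
    (fun p => (hv p.1 x, Function.update p.1 0 p.2)) ?_ ?_
  · rintro ⟨α, u⟩ h
    simp only [Finset.coe_product, Finset.coe_filter, Finset.mem_univ, true_and, Set.mem_prod,
      Set.mem_setOf_eq, Finset.coe_univ, Set.mem_univ, and_true] at h
    simp only [Finset.coe_product, Finset.coe_univ, Set.mem_prod, Finset.mem_coe, Set.mem_univ,
      and_true]
    exact h
  · rintro ⟨α, u⟩ - ⟨α', u'⟩ - h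
    simp only [Prod.mk.injEq] at h
    obtain ⟨h1, h2⟩ := h
    have hu : u = u' := by
      have := congrFun h2 0
      simpa using this
    have hne : ∀ i : Fin (n + 1), i ≠ 0 → α i = α' i := fun i hi => by
      have := congrFun h2 i
      simpa [Function.update_of_ne hi] using this
    have h0 : α 0 = α' 0 := by
      funext j
      have h3 : hb (row α j) x = hb (row α' j) x := congrFun h1 j
      have h4 := hb_one (fun i hi => ?_) h3
      · rwa [row_zero, row_zero] at h4
      · unfold row
        by_cases hi' : i < n + 1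
        · rw [dif_pos hi', dif_pos hi', hne ⟨i, hi'⟩ (fun h => hi (congrArg Fin.val h))]
        · rw [dif_neg hi', dif_neg hi']
    have hα : α = α' := by
      funext i
      by_cases hi : i = 0
      · rw [hi, h0]
      · exact hne i hi
    rw [hα, hu]

/-- Joint law, ordered case. -/
theorem card_two' (x x' : List Bool) (i₀ : ℕ) (hi : i₀ < x.length) (hn : x.length = n)
    (hx : x.getD i₀ false = true) (hx' : x'.getD i₀ false = false)
    (R : Finset ((Fin m → Bool) × (Fin m → Bool))) :
    (Finset.univ.filter fun α : Fin (n + 1) → Fin m → Bool => (hv α x, hv α x') ∈ R).card *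
      (2 ^ m * 2 ^ m) ≤ R.card * 2 ^ ((n + 1) * m) := by
  classical
  have hX : Fintype.card (Fin m → Bool) = 2 ^ m := by simp
  have hH : Fintype.card (Fin (n + 1) → Fin m → Bool) = 2 ^ ((n + 1) * m) := by
    simp [← pow_mul, mul_comm]
  have hi1 : i₀ + 1 < n + 1 := by omega
  have hne0 : (⟨i₀ + 1, hi1⟩ : Fin (n + 1)) ≠ 0 := fun h => by
    have := congrArg Fin.val h
    simp at this
  rw [← hX, ← hH, ← Finset.card_univ, ← Finset.card_univ, ← Finset.card_product,
    ← Finset.card_product, ← Finset.card_product]
  refine Finset.card_le_card_of_injOn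
    (fun p => ((hv p.1 x, hv p.1 x'),
      Function.update (Function.update p.1 0 p.2.1) ⟨i₀ + 1, hi1⟩ p.2.2)) ?_ ?_
  · rintro ⟨α, u⟩ h
    simp only [Finset.coe_product, Finset.coe_filter, Finset.mem_univ, true_and, Set.mem_prod,
      Set.mem_setOf_eq, Finset.coe_univ, Set.mem_univ, and_true] at h
    simp only [Finset.coe_product, Finset.coe_univ, Set.mem_prod, Finset.mem_coe, Set.mem_univ,
      and_true]
    exact h
  · rintro ⟨α, u, v⟩ - ⟨α', u', v'⟩ - h
    simp only [Prod.mk.injEq] at h
    obtain ⟨⟨h1, h1'⟩, h2⟩ := h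
    have hv' : v = v' := by
      have := congrFun h2 ⟨i₀ + 1, hi1⟩
      simpa using this
    have hu : u = u' := by
      have := congrFun h2 0
      rw [Function.update_of_ne hne0.symm, Function.update_of_ne hne0.symm] at this
      simpa using this
    have hne : ∀ i : Fin (n + 1), i ≠ 0 → i ≠ ⟨i₀ + 1, hi1⟩ → α i = α' i := fun i hi hi' => by
      have := congrFun h2 i
      rw [Function.update_of_ne hi', Function.update_of_ne hi', Function.update_of_ne hi,
        Function.update_of_ne hi] at this
      exact this
    have h0 : ∀ j, α 0 j = α' 0 j ∧ α ⟨i₀ + 1, hi1⟩ j = α' ⟨i₀ + 1, hi1⟩ j := by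
      intro j
      have h3 : hb (row α j) x = hb (row α' j) x := congrFun h1 j
      have h3' : hb (row α j) x' = hb (row α' j) x' := congrFun h1' j
      have h4 := hb_two hi hx hx' (fun i hi hi' => ?_) h3 h3'
      · rw [row_zero, row_zero] at h4
        refine ⟨h4.1, ?_⟩
        have h5 := h4.2
        unfold row at h5
        rwa [dif_pos hi1, dif_pos hi1] at h5
      · unfold row
        by_cases hi'' : i < n + 1
        · rw [dif_pos hi'', dif_pos hi'', hne ⟨i, hi''⟩ (fun h => hi (congrArg Fin.val h))
            (fun h => hi' (congrArg Fin.val h))]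
        · rw [dif_neg hi'', dif_neg hi'']
    have hα : α = α' := by
      funext i
      by_cases hi : i = 0
      · subst hi
        funext j
        exact (h0 j).1
      · by_cases hi' : i = ⟨i₀ + 1, hi1⟩
        · subst hi'
          funext j
          exact (h0 j).2
        · exact hne i hi hi'
    rw [hα, hu, hv']

/-- Joint law. -/
theorem card_two (x x' : List Bool) (hn : x.length = n) (hn' : x'.length = n) (hne : x ≠ x')
    (R : Finset ((Fin m → Bool) × (Fin m → Bool))) :
    (Finset.univ.filter fun α : Fin (n + 1) → Fin m → Bool => (hv α x, hv α x') ∈ R).card *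
      (2 ^ m * 2 ^ m) ≤ R.card * 2 ^ ((n + 1) * m) := by
  classical
  obtain ⟨i₀, hi, hd⟩ : ∃ i, i < n ∧ x.getD i false ≠ x'.getD i false := by
    by_contra hcon
    push Not at hcon
    apply hne
    apply List.ext_getElem (by omega)
    intro i h1 h2
    have h3 := hcon i (by omega)
    rwa [List.getD_eq_getElem _ _ h1, List.getD_eq_getElem _ _ h2] at h3
  by_cases hx : x.getD i₀ false = true
  · have hx' : x'.getD i₀ false = false := by
      rw [hx] at hd
      cases h : x'.getD i₀ false
      · rfl
      · exact absurd h.symm hd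
    exact card_two' x x' i₀ (by omega) hn hx hx' R
  · have hx0 : x.getD i₀ false = false := by simpa using hx
    have hx' : x'.getD i₀ false = true := by
      rw [hx0] at hd
      cases h : x'.getD i₀ false
      · exact absurd h.symm hd
      · rfl
    have h1 := card_two' (m := m) x' x i₀ (by omega) hn' hx' hx0 (R.map (Equiv.prodComm _ _).toEmbedding)
    rw [Finset.card_map] at h1
    refine le_trans (Nat.mul_le_mul_right _ (Finset.card_le_card ?_)) h1
    intro α hα
    rw [Finset.mem_filter] at hα ⊢
    refine ⟨Finset.mem_univ _, ?_⟩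
    rw [Finset.mem_map_equiv]
    exact hα.2

end

end Pool.EN
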