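import Pool.Agent.Work.MP_cb380d_en.Union
import Pool.Agent.Work.MP_cb380d_ev.B_PLF
import Pool.Agent.Work.MP_cb380d_ev.B_HVA
import Pool.Agent.Work.MP_cb380d_ev.B_NPD
import Pool.Agent.Work.MP_cb380d_ev.B_NPE
import Pool.Agent.Work.MP_cb380d_ev.B_P2I

/-!
# MP_cb380d_lc, EntropyReductions: languages and programs
-/

set_option autoImplicit false

open Pool.IC Pool.GL Pool.TL Polynomial
open Pool.EV (rst lead dcd)

namespace Pool.EN

/-! ### Reading off the first length -/

theorem filter_range (M N : ℕ) :
    ((List.range N).filter fun u => decide (u < M)).length = min N M := by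
  induction N with
  | zero => simp
  | succ N ih =>
    rw [List.range_succ, List.filter_append, List.length_append, ih]
    by_cases h : N < M
    · simp [h]; omega
    · simp [h]; omega

/-- The largest `u` with `P u ≤ |z|`. -/
def uo (P : ℕ → ℕ) (z : Str) : ℕ :=
  ((List.range (z.length + 1)).filter fun u => decide (P u ≤ z.length)).length - 1

theorem uo_eq {P : ℕ → ℕ} (hP : StrictMono P) {u : ℕ} {z : Str} (h : z.length = P u) :
    uo P z = u := by
  unfold uo
  have h1 : ((List.range (z.length + 1)).filter fun v => decide (P v ≤ z.length)) =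
      ((List.range (z.length + 1)).filter fun v => decide (v < u + 1)) := by
    apply List.filter_congr
    intro v _
    rw [decide_eq_decide, h, hP.le_iff_le, Nat.lt_succ_iff]
  rw [h1, filter_range]
  have := hP.id_le u
  simp only [id] at this
  omega

theorem poly_uo (B : Set Str) (P : ℕ → ℕ) (hP : PolyF B (fun p : Str × ℕ => P p.2)) :
    PolyF B (uo P) := by
  have h2 : PolyF B (fun z : Str => ((List.range (z.length + 1)).filter
      fun u => decide (P u ≤ z.length))) := by
    refine PolyF.filter (l := fun z : Str => List.range (z.length + 1))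
      (f := fun z u => decide (P u ≤ z.length)) (by fun_prop) ?_
    exact PolyF.le hP (by fun_prop)
  show PolyF B (fun z : Str => ((List.range (z.length + 1)).filter
      fun u => decide (P u ≤ z.length)).length - 1)
  fun_prop

/-! ### Sets in NP -/

/-- Preimages under functions which do not increase the length. -/
theorem np_comap (B L : Set Str) (hL : InNP B L) (d : Str → Str) (hd : PolyF B d)
    (hlen : ∀ z, (d z).length ≤ z.length) : InNP B {z | d z ∈ L} := by
  obtain ⟨V, r, hV, hr, hVL⟩ := Pool.EV.p_NPD B L hL
  refine Pool.EV.p_NPE Pool.EV.p_P2I B {z | d z ∈ L} (fun p => V (p.1, d p.2)) r ?_ ?_ ?_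
  · have h1 : PolyF B (fun p : Str × Str => (p.1, d p.2)) :=
      PolyF.pair (by fun_prop) (PolyF.comp (f := d) hd (by fun_prop))
    exact PolyF.comp (f := V) hV h1
  · intro y z h
    exact (hr _ _ h).trans (poly_mono r (hlen z))
  · intro z
    exact hVL (d z)

theorem length_rst (z : Str) : (rst z).length ≤ z.length := by
  unfold rst
  rw [List.length_drop]
  omega

theorem poly_rst (B : Set Str) : PolyF B rst := (Pool.EV.p_PLF B).2.1

theorem poly_dcd (B : Set Str) : PolyF B dcd := (Pool.EV.p_PLF B).2.2.2.1

theorem length_dcd (z : Str) : (dcd z).length ≤ z.length := by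
  unfold dcd
  rw [List.length_take]
  have := length_rst z
  omega

theorem dcd_eq (x s : Str) : dcd (un x.length ++ false :: (x ++ s)) = x := by
  unfold dcd
  rw [Pool.EV.HVA_rst, Pool.EV.HVA_lead, List.take_left' rfl]

/-! ### The padded set of the entropy criterion -/

/-- Lengths of the padded instances. -/
def PP (k u : ℕ) : ℕ := (5 * u) ^ k + u + 1

theorem PP_mono (k : ℕ) : StrictMono (PP k) := by
  intro u v h
  unfold PP
  have := Nat.pow_le_pow_left (show 5 * u ≤ 5 * v by omega) k
  omega

theorem poly_PP (B : Set Str) (k : ℕ) : PolyF B (fun p : Str × ℕ => PP k p.2) := by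
  unfold PP
  have h1 : PolyF B (fun p : Str × ℕ => (5 * p.2) ^ k) := PolyF.pow (by fun_prop) k
  fun_prop

/-- The first part of a padded instance. -/
def cut (k : ℕ) (z : Str) : Str := z.take (uo (PP k) z)

theorem poly_cut (B : Set Str) (k : ℕ) : PolyF B (cut k) := by
  have h1 := poly_uo B (PP k) (poly_PP B k)
  show PolyF B (fun z : Str => z.take (uo (PP k) z))
  exact PolyF.take h1 (by fun_prop)

theorem LL_np (B L : Set Str) (k : ℕ) (hL : InNP B L) : InNP B {z | rst (cut k z) ∈ L} := by
  refine np_comap B L hL (fun z => rst (cut k z)) ?_ ?_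
  · exact PolyF.comp (f := rst) (poly_rst B) (poly_cut B k)
  · intro z
    refine (length_rst _).trans ?_
    unfold cut
    rw [List.length_take]
    omega

/-- Length of the random part. -/
def mm (k t n : ℕ) : ℕ := (5 * (n + t + 1)) ^ k + 1

theorem cut_pad (k t : ℕ) (x r : Str) (hr : r.length = mm k t x.length) :
    rst (cut k (un t ++ false :: (x ++ r))) = x := by
  have h1 : (un t ++ false :: (x ++ r)).length = PP k (x.length + t + 1) := by
    simp only [un, List.length_append, List.length_replicate, List.length_cons, hr]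
    unfold mm PP
    omega
  unfold cut
  rw [uo_eq (PP_mono k) h1]
  have h2 : un t ++ false :: (x ++ r) = (un t ++ false :: x) ++ r := by simp
  rw [h2, List.take_left' (by simp [un]; omega), Pool.EV.HVA_rst]

/-! ### The hash function -/

/-- The hash value of `x` for the key `A` (a string of rows of length `m`). -/
def hs (m : ℕ) (A x : Str) : Str :=
  (List.range m).map fun j => hb (fun i => A.getD (i * m + j) false) x

theorem length_hs (m : ℕ) (A x : Str) : (hs m A x).length = m := by simp [hs]

theorem poly_hs (B : Set Str) : PolyF B (fun p : ℕ × Str × Str => hs p.1 p.2.1 p.2.2) := by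
  have h1 : PolyF B (fun q : (ℕ × Str × Str) × ℕ =>
      (List.range q.1.2.2.length).foldl
        (fun s i => s ^^ (q.1.2.2.getD i false && q.1.2.1.getD ((i + 1) * q.1.1 + q.2) false))
        (q.1.2.1.getD (0 * q.1.1 + q.2) false)) := by
    refine PolyF.foldl_add (l := fun q : (ℕ × Str × Str) × ℕ => List.range q.1.2.2.length)
      (g := fun q => q.1.2.1.getD (0 * q.1.1 + q.2) false)
      (h := fun q s i => s ^^ (q.1.2.2.getD i false &&
        q.1.2.1.getD ((i + 1) * q.1.1 + q.2) false)) (by fun_prop) (by fun_prop)
      (by fun_prop) 0 ?_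
    intro q s i _
    simp
  exact PolyF.map (l := fun p : ℕ × Str × Str => List.range p.1)
    (f := fun p j => hb (fun i => p.2.1.getD (i * p.1 + j) false) p.2.2) (by fun_prop) h1

/-! ### The reduction -/

/-- Length of the hash values. -/
noncomputable def mp (l : Polynomial ℕ) : Polynomial ℕ := 3 * X + 3 + l.comp (5 * X + 4)

theorem mp_eval (l : Polynomial ℕ) (n : ℕ) :
    (mp l).eval n = 3 * n + 3 + l.eval (5 * n + 4) := by
  unfold mp
  simp

/-- The function of a random string and the input. -/
def FF (f : Str → Str) (r x : Str) : Str := f (un x.length ++ false :: (x ++ r))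

/-- The reduction with key `A`. -/
noncomputable def gg (f : Str → Str) (l : Polynomial ℕ) (A x : Str) : Str :=
  FF f (hs ((mp l).eval x.length) A x) x

theorem poly_gg (B : Set Str) {f : Str → Str} (hf : PolyF B f) (l : Polynomial ℕ) :
    PolyF B (fun p : Str × Str => gg f l p.1 p.2) := by
  have h1 : PolyF B (fun p : Str × Str => (mp l).eval p.2.length) :=
    PolyF.polyEval (mp l) (by fun_prop)
  have h2 : PolyF B (fun p : Str × Str => hs ((mp l).eval p.2.length) p.1 p.2) :=
    PolyF.comp (f := fun q : ℕ × Str × Str => hs q.1 q.2.1 q.2.2)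
      (g := fun p : Str × Str => ((mp l).eval p.2.length, p.1, p.2)) (poly_hs B)
      (PolyF.pair h1 (by fun_prop))
  have h3 : PolyF B (fun p : Str × Str => List.replicate p.2.length true ++
      false :: (p.2 ++ hs ((mp l).eval p.2.length) p.1 p.2)) := by
    refine PolyF.append (by fun_prop) (PolyF.cons (by fun_prop) (PolyF.append (by fun_prop) h2))
  exact PolyF.comp (f := f) hf h3

/-! ### Programs with two inputs -/

/-- From typed functions of two strings to programs with two inputs. -/
theorem two_inputs (B : Set Str) {G : Str × Str → Str} (hG : PolyF B G) :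
    ∃ (M : Cmd) (q : Polynomial ℕ), ∀ y z : Str,
      out B M [] y z (q.eval (y.length + z.length)) = some (G (y, z)) := by
  have h1 : PolyF B (fun p : Raw × Raw => (⟨G (p.1.s, p.2.s)⟩ : Raw)) := by
    have h0 : PolyF B (fun p : Raw × Raw => (p.1.s, p.2.s)) := by fun_prop
    exact PolyF.toRaw (PolyF.comp (f := G) hG h0)
  obtain ⟨F, hF, h2⟩ := h1.out
  obtain ⟨M, q, hM⟩ := Pool.EV.p_P2I B F hF
  refine ⟨M, q, fun y z => ?_⟩
  rw [hM y z]
  have h3 := h2 (⟨y⟩, ⟨z⟩)
  simp only [se_pair, se_raw] at h3
  rw [h3]

open Classical in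
/-- From programs with two inputs to typed functions of two strings. -/
theorem of_two_inputs (B : Set Str) {G : Str × Str → Str} {M : Cmd} {q : Polynomial ℕ}
    (hout : ∀ y z : Str, out B M [] y z (q.eval (y.length + z.length)) = some (G (y, z))) :
    PolyF B G := by
  obtain ⟨R, hR, hRs⟩ := run
  have hid : FP {B} (fun _ (x : Str) => x) := lib.idn
  have hw : FP {B} (fun _ (x : Str) => un (q.eval x.length)) := una {B} q _ hid
  have harg : FP {B} (fun _ (x : Str) =>
      pr (un (q.eval x.length)) (pr (code M) (pr [] (pr (fs x) (sn x))))) :=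
    lib.pair hw (lib.pair (lib.const _) (lib.pair (lib.const _)
      (lib.pair (lib.fst hid) (lib.snd hid))))
  have hR' : FP {B} R := hR.mono (Set.subset_univ _)
  have h1 : FP {B} (fun B' (x : Str) =>
      (R B' (pr (un (q.eval x.length)) (pr (code M) (pr [] (pr (fs x) (sn x)))))).tail) :=
    lib.tail (lib.comp harg hR')
  have h2 : FP {B} (fun _ (x : Str) =>
      (R B (pr (un (q.eval x.length)) (pr (code M) (pr [] (pr (fs x) (sn x)))))).tail) :=
    h1.congr (fun B' hB' x => by rw [Set.mem_singleton_iff.1 hB'])
  have key : ∀ y z : Str, (R B (pr (un (q.eval (pr y z).length))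
      (pr (code M) (pr [] (pr (fs (pr y z)) (sn (pr y z))))))).tail = G (y, z) := by
    intro y z
    rw [hRs, p_COD, fs_pr, sn_pr]
    have h3 := out_mono (hout y z) (N := (un (q.eval (pr y z).length)).length) (by
      have e : (un (q.eval (pr y z).length)).length = q.eval (pr y z).length := by simp
      rw [e]
      exact poly_mono q (by rw [length_pr]; omega))
    rw [h3]
    rfl
  have h4 : PolyF B (fun p : Raw × Raw => (⟨G (p.1.s, p.2.s)⟩ : Raw)) :=
    PolyF.mk ⟨_, h2, fun a => key a.1.s a.2.s⟩
  have h5 : PolyF B (fun p : Str × Str => ((⟨p.1⟩ : Raw), (⟨p.2⟩ : Raw))) :=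
    PolyF.pair (PolyF.toRaw (by fun_prop)) (PolyF.toRaw (by fun_prop))
  exact PolyF.ofRaw (PolyF.comp (f := fun p : Raw × Raw => (⟨G (p.1.s, p.2.s)⟩ : Raw)) h4 h5)

end Pool.EN
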