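import Pool.Agent.Work.MP_cb380d_en.Hash

/-!
# MP_cb380d_lc, EntropyReductions: the union bound
-/

set_option autoImplicit false

namespace Pool.EN

/-- All strings of length `n`. -/
def strs (n : ℕ) : Finset (List Bool) :=
  (Finset.univ : Finset (Fin n → Bool)).map ⟨List.ofFn, List.ofFn_injective⟩

theorem mem_strs {n : ℕ} {x : List Bool} : x ∈ strs n ↔ x.length = n := by
  unfold strs
  simp only [Finset.mem_map, Finset.mem_univ, true_and, Function.Embedding.coeFn_mk]
  constructor
  · rintro ⟨r, rfl⟩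
    simp
  · rintro rfl
    exact ⟨fun i => x[i], List.ofFn_getElem⟩

theorem card_strs (n : ℕ) : (strs n).card = 2 ^ n := by
  unfold strs
  simp

/-- All strings of length at most `n`. -/
def short (n : ℕ) : Finset (List Bool) := (Finset.range (n + 1)).biUnion strs

theorem mem_short {n : ℕ} {x : List Bool} : x ∈ short n ↔ x.length ≤ n := by
  unfold short
  simp only [Finset.mem_biUnion, Finset.mem_range, mem_strs]
  constructor
  · rintro ⟨a, ha, h⟩
    omega
  · intro h
    exact ⟨x.length, by omega, rfl⟩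

theorem card_short (n : ℕ) : (short n).card ≤ 2 ^ (n + 1) := by
  refine Finset.card_biUnion_le.trans ?_
  rw [Finset.sum_congr rfl fun i _ => card_strs i]
  have : ∀ k : ℕ, ∑ i ∈ Finset.range k, 2 ^ i ≤ 2 ^ k := by
    intro k
    induction k with
    | zero => simp
    | succ k ih => rw [Finset.sum_range_succ, pow_succ 2 k]; omega
  exact this (n + 1)

section

variable {n m h : ℕ} (F : List Bool → List Bool → List Bool)

/-- The function with key `α`. -/
def gv (α : Fin (n + 1) → Fin m → Bool) (x : List Bool) : List Bool :=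
  F (List.ofFn (hv α x)) x

theorem fib_le (x y : List Bool)
    (hf : 2 ^ h * {r : List Bool | r.length = m ∧ F r x = y}.ncard ≤ 2 ^ m) :
    (Finset.univ.filter fun r : Fin m → Bool => F (List.ofFn r) x = y).card * 2 ^ h ≤
      2 ^ m := by
  refine le_trans ?_ hf
  rw [mul_comm]
  refine Nat.mul_le_mul_left _ ?_
  rw [← Set.ncard_coe_finset]
  have hfin : {r : List Bool | r.length = m ∧ F r x = y}.Finite := by
    refine (strs m).finite_toSet.subset fun z hz => ?_
    exact Finset.mem_coe.2 (mem_strs.2 hz.1)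
  refine Set.ncard_le_ncard_of_injOn (fun r => List.ofFn r) (fun r hr => ?_)
    (fun r _ r' _ he => ?_) hfin
  · simp only [Finset.coe_filter, Finset.mem_univ, true_and] at hr
    exact ⟨by simp, hr⟩
  · exact List.ofFn_injective he

theorem ev_one (x y : List Bool)
    (hf : 2 ^ h * {r : List Bool | r.length = m ∧ F r x = y}.ncard ≤ 2 ^ m) :
    (Finset.univ.filter fun α : Fin (n + 1) → Fin m → Bool => gv F α x = y).card * 2 ^ h ≤
      2 ^ ((n + 1) * m) := by
  classical
  have h1 := card_one (n := n) x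
    (Finset.univ.filter fun r : Fin m → Bool => F (List.ofFn r) x = y)
  have h2 := fib_le F x y hf
  have h3 : (Finset.univ.filter fun α : Fin (n + 1) → Fin m → Bool =>
      hv α x ∈ (Finset.univ.filter fun r : Fin m → Bool => F (List.ofFn r) x = y)) =
      (Finset.univ.filter fun α : Fin (n + 1) → Fin m → Bool => gv F α x = y) := by
    apply Finset.filter_congr
    intro α _
    simp [gv]
  rw [h3] at h1
  have h4 : 0 < 2 ^ m := Nat.pos_of_ne_zero (by positivity)
  refine Nat.le_of_mul_le_mul_right ?_ h4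
  calc _ = (Finset.univ.filter fun α : Fin (n + 1) → Fin m → Bool => gv F α x = y).card * 2 ^ m
        * 2 ^ h := by ring
    _ ≤ _ := Nat.mul_le_mul_right _ h1
    _ = (Finset.univ.filter fun r : Fin m → Bool => F (List.ofFn r) x = y).card * 2 ^ h *
        2 ^ ((n + 1) * m) := by ring
    _ ≤ 2 ^ m * 2 ^ ((n + 1) * m) := Nat.mul_le_mul_right _ h2
    _ = _ := by ring

theorem ev_two (x x' : List Bool) (hn : x.length = n) (hn' : x'.length = n) (hne : x ≠ x')
    (hf : ∀ y, 2 ^ h * {r : List Bool | r.length = m ∧ F r x = y}.ncard ≤ 2 ^ m) :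
    (Finset.univ.filter fun α : Fin (n + 1) → Fin m → Bool => gv F α x = gv F α x').card *
      2 ^ h ≤ 2 ^ ((n + 1) * m) := by
  classical
  have h1 := card_two (m := m) x x' hn hn' hne
    (Finset.univ.filter fun p : (Fin m → Bool) × (Fin m → Bool) =>
      F (List.ofFn p.1) x = F (List.ofFn p.2) x')
  have h2 : (Finset.univ.filter fun p : (Fin m → Bool) × (Fin m → Bool) =>
      F (List.ofFn p.1) x = F (List.ofFn p.2) x').card * 2 ^ h ≤ 2 ^ m * 2 ^ m := by
    rw [Finset.card_filter, Fintype.sum_prod_type_right, Finset.sum_mul]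
    have h3 : ∀ r' ∈ (Finset.univ : Finset (Fin m → Bool)),
        (∑ r : Fin m → Bool, if F (List.ofFn r) x = F (List.ofFn r') x' then 1 else 0) *
          2 ^ h ≤ 2 ^ m := by
      intro r' _
      rw [← Finset.card_filter]
      exact fib_le F x _ (hf _)
    refine (Finset.sum_le_card_nsmul _ _ _ h3).trans (le_of_eq ?_)
    simp
  have h3 : (Finset.univ.filter fun α : Fin (n + 1) → Fin m → Bool =>
      (hv α x, hv α x') ∈ (Finset.univ.filter fun p : (Fin m → Bool) × (Fin m → Bool) =>
      F (List.ofFn p.1) x = F (List.ofFn p.2) x')) =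
      (Finset.univ.filter fun α : Fin (n + 1) → Fin m → Bool => gv F α x = gv F α x') := by
    apply Finset.filter_congr
    intro α _
    simp [gv]
  rw [h3] at h1
  have h4 : 0 < 2 ^ m * 2 ^ m := Nat.pos_of_ne_zero (by positivity)
  refine Nat.le_of_mul_le_mul_right ?_ h4
  calc _ = (Finset.univ.filter fun α : Fin (n + 1) → Fin m → Bool =>
          gv F α x = gv F α x').card * (2 ^ m * 2 ^ m) * 2 ^ h := by ring
    _ ≤ _ := Nat.mul_le_mul_right _ h1
    _ = (Finset.univ.filter fun p : (Fin m → Bool) × (Fin m → Bool) =>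
          F (List.ofFn p.1) x = F (List.ofFn p.2) x').card * 2 ^ h *
          2 ^ ((n + 1) * m) := by ring
    _ ≤ 2 ^ m * 2 ^ m * 2 ^ ((n + 1) * m) := Nat.mul_le_mul_right _ h2
    _ = _ := by ring

/-- The key is good for the strings of length `n` and the forbidden set `S`. -/
def Good (S : Finset (List Bool)) (α : Fin (n + 1) → Fin m → Bool) : Prop :=
  (∀ x x' : List Bool, x.length = n → x'.length = n → gv F α x = gv F α x' → x = x') ∧
  ∀ x : List Bool, x.length = n → n < (gv F α x).length ∧ gv F α x ∉ S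

open Classical in
/-- **Union bound.** -/
theorem bad_le
    (hf : ∀ x : List Bool, x.length = n →
      ∀ y, 2 ^ h * {r : List Bool | r.length = m ∧ F r x = y}.ncard ≤ 2 ^ m)
    (hh : 3 * n + 3 ≤ h) (S : Finset (List Bool)) (hS : S.card ≤ 2 ^ n) :
    (Finset.univ.filter fun α : Fin (n + 1) → Fin m → Bool => ¬ Good F S α).card *
      2 ^ (n + 1) ≤ 2 ^ ((n + 1) * m) := by
  set H := 2 ^ ((n + 1) * m) with hH
  let E1 : List Bool → List Bool → Finset (Fin (n + 1) → Fin m → Bool) := fun x y =>
    Finset.univ.filter fun α => gv F α x = y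
  let E2 : List Bool → List Bool → Finset (Fin (n + 1) → Fin m → Bool) := fun x x' =>
    if x = x' then ∅ else Finset.univ.filter fun α => gv F α x = gv F α x'
  let B1 := ((strs n) ×ˢ (short n ∪ S)).biUnion fun p => E1 p.1 p.2
  let B2 := ((strs n) ×ˢ (strs n)).biUnion fun p => E2 p.1 p.2
  have hsub : (Finset.univ.filter fun α : Fin (n + 1) → Fin m → Bool => ¬ Good F S α) ⊆
      B1 ∪ B2 := by
    intro α hα
    rw [Finset.mem_filter] at hα
    by_contra hcon
    rw [Finset.mem_union, not_or] at hcon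
    apply hα.2
    refine ⟨fun x x' hx hx' he => ?_, fun x hx => ⟨?_, fun hxS => ?_⟩⟩
    · by_contra hne
      apply hcon.2
      refine Finset.mem_biUnion.2 ⟨(x, x'), Finset.mem_product.2 ⟨mem_strs.2 hx, mem_strs.2 hx'⟩, ?_⟩
      show α ∈ (if x = x' then ∅ else _)
      rw [if_neg hne]
      exact Finset.mem_filter.2 ⟨Finset.mem_univ _, he⟩
    · by_contra hlen
      apply hcon.1
      refine Finset.mem_biUnion.2 ⟨(x, gv F α x), Finset.mem_product.2 ⟨mem_strs.2 hx,
        Finset.mem_union_left _ (mem_short.2 (Nat.le_of_not_lt hlen))⟩, ?_⟩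
      exact Finset.mem_filter.2 ⟨Finset.mem_univ _, rfl⟩
    · apply hcon.1
      refine Finset.mem_biUnion.2 ⟨(x, gv F α x), Finset.mem_product.2 ⟨mem_strs.2 hx,
        Finset.mem_union_right _ hxS⟩, ?_⟩
      exact Finset.mem_filter.2 ⟨Finset.mem_univ _, rfl⟩
  have c1 : B1.card * 2 ^ h ≤ 2 ^ n * (2 ^ (n + 1) + 2 ^ n) * H := by
    calc B1.card * 2 ^ h ≤ (∑ p ∈ (strs n) ×ˢ (short n ∪ S), (E1 p.1 p.2).card) * 2 ^ h :=
          Nat.mul_le_mul_right _ Finset.card_biUnion_le
      _ = ∑ p ∈ (strs n) ×ˢ (short n ∪ S), (E1 p.1 p.2).card * 2 ^ h := Finset.sum_mul _ _ _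
      _ ≤ ((strs n) ×ˢ (short n ∪ S)).card • H := by
          refine Finset.sum_le_card_nsmul _ _ _ fun p hp => ?_
          have hp1 := mem_strs.1 (Finset.mem_product.1 hp).1
          exact ev_one F p.1 p.2 (hf _ hp1 _)
      _ = ((strs n) ×ˢ (short n ∪ S)).card * H := by rw [smul_eq_mul]
      _ ≤ _ := by
          refine Nat.mul_le_mul_right _ ?_
          rw [Finset.card_product, card_strs]
          refine Nat.mul_le_mul_left _ ?_
          exact (Finset.card_union_le _ _).trans (Nat.add_le_add (card_short n) hS)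
  have c2 : B2.card * 2 ^ h ≤ 2 ^ n * 2 ^ n * H := by
    calc B2.card * 2 ^ h ≤ (∑ p ∈ (strs n) ×ˢ (strs n), (E2 p.1 p.2).card) * 2 ^ h :=
          Nat.mul_le_mul_right _ Finset.card_biUnion_le
      _ = ∑ p ∈ (strs n) ×ˢ (strs n), (E2 p.1 p.2).card * 2 ^ h := Finset.sum_mul _ _ _
      _ ≤ ((strs n) ×ˢ (strs n)).card • H := by
          refine Finset.sum_le_card_nsmul _ _ _ fun p hp => ?_
          have hp1 := mem_strs.1 (Finset.mem_product.1 hp).1
          have hp2 := mem_strs.1 (Finset.mem_product.1 hp).2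
          show (if p.1 = p.2 then ∅ else _ : Finset _).card * 2 ^ h ≤ _
          by_cases hne : p.1 = p.2
          · rw [if_pos hne]
            simp
          · rw [if_neg hne]
            exact ev_two F p.1 p.2 hp1 hp2 hne (hf _ hp1)
      _ = ((strs n) ×ˢ (strs n)).card * H := by rw [smul_eq_mul]
      _ = _ := by rw [Finset.card_product, card_strs]
  have c3 : (Finset.univ.filter fun α : Fin (n + 1) → Fin m → Bool => ¬ Good F S α).card *
      2 ^ h ≤ 2 ^ (2 * n + 2) * H := by
    calc _ ≤ (B1.card + B2.card) * 2 ^ h := Nat.mul_le_mul_right _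
          ((Finset.card_le_card hsub).trans (Finset.card_union_le _ _))
      _ = B1.card * 2 ^ h + B2.card * 2 ^ h := add_mul _ _ _
      _ ≤ _ := Nat.add_le_add c1 c2
      _ = _ := by
          rw [pow_add 2 (2 * n) 2, two_mul n, pow_add 2 n n, pow_add 2 n 1]
          ring
  have h5 : 0 < 2 ^ (2 * n + 2) := Nat.pos_of_ne_zero (by positivity)
  refine Nat.le_of_mul_le_mul_left ?_ h5
  refine le_trans ?_ c3
  rw [mul_comm, mul_assoc, ← pow_add]
  exact Nat.mul_le_mul_left _ (Nat.pow_le_pow_right (by norm_num) (by omega))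

end

end Pool.EN
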